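import Pool.Agent.Helper30.UB.St

/-!
# Project UB, module DKS: submultiplicativity of `d_k`
-/

set_option autoImplicit false

open Polynomial Finset Pool.Agent.Helper15.FC Pool.Agent.Helper30.UB

namespace Pool.Agent.Helper47.UB

/-- a monic divisor of a product of monics is a product of monic divisors -/
private lemma split {F : Type} [Field F] {f g e : F[X]} (he : e.Monic) (h : e ∣ f * g) :
    ∃ a b : F[X], a.Monic ∧ b.Monic ∧ a ∣ f ∧ b ∣ g ∧ e = a * b := by
  classical
  obtain ⟨a, b, ha, hb, hab⟩ := exists_dvd_and_dvd_of_dvd_mul h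
  have ha0 : a ≠ 0 := by
    rintro rfl
    rw [zero_mul] at hab
    exact he.ne_zero hab
  have hb0 : b ≠ 0 := by
    rintro rfl
    rw [mul_zero] at hab
    exact he.ne_zero hab
  refine ⟨normalize a, normalize b, monic_normalize ha0, monic_normalize hb0,
    normalize_dvd_iff.2 ha, normalize_dvd_iff.2 hb, ?_⟩
  rw [← normalize_mul, ← hab, he.normalize_eq_self]

private lemma submul (hR : StDKR) (F : Type) [Field F] [Fintype F] (k : ℕ) :
    ∀ f g : F[X], f.Monic → g.Monic → dk k (f * g) ≤ dk k f * dk k g := by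
  classical
  obtain ⟨⟨h01, h0⟩, hrec, -, -⟩ := hR F
  induction k with
  | zero =>
    intro f g hf hg
    by_cases h1 : f * g = 1
    · have hf1 : f = 1 := hf.eq_one_of_isUnit (IsUnit.of_mul_eq_one g h1)
      have hg1 : g = 1 := by rwa [hf1, one_mul] at h1
      rw [hf1, hg1, one_mul, h01]
    · rw [h0 _ (hf.mul hg) h1]
      exact Nat.zero_le _
  | succ k ih =>
    intro f g hf hg
    have hfg := hf.mul hg
    rw [hrec k _ hfg, hrec k f hf, hrec k g hg, Finset.sum_mul_sum, ← Finset.sum_product']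
    have hmaps : ∀ x ∈ Dv f ×ˢ Dv g, x.1 * x.2 ∈ Dv (f * g) := by
      intro x hx
      rw [Finset.mem_product, mem_Dv hf.ne_zero, mem_Dv hg.ne_zero] at hx
      rw [mem_Dv hfg.ne_zero]
      exact ⟨hx.1.1.mul hx.2.1, mul_dvd_mul hx.1.2 hx.2.2⟩
    rw [← Finset.sum_fiberwise_of_maps_to hmaps]
    refine Finset.sum_le_sum fun e he => ?_
    rw [mem_Dv hfg.ne_zero] at he
    obtain ⟨a, b, ha, hb, haf, hbg, hab⟩ := split he.1 he.2
    obtain ⟨f', hf'⟩ := haf
    obtain ⟨g', hg'⟩ := hbg
    have e1 : f / a = f' := by rw [hf', mul_div_cancel_left₀ _ ha.ne_zero]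
    have e2 : g / b = g' := by rw [hg', mul_div_cancel_left₀ _ hb.ne_zero]
    have e3 : f * g / e = f' * g' := by
      rw [hab, hf', hg', show a * f' * (b * g') = a * b * (f' * g') by ring,
        mul_div_cancel_left₀ _ (ha.mul hb).ne_zero]
    have hf'm : f'.Monic := ha.of_mul_monic_left (hf' ▸ hf)
    have hg'm : g'.Monic := hb.of_mul_monic_left (hg' ▸ hg)
    rw [e3]
    refine (ih f' g' hf'm hg'm).trans ?_
    have hmem : (a, b) ∈ (Dv f ×ˢ Dv g).filter (fun x => x.1 * x.2 = e) := by
      rw [Finset.mem_filter, Finset.mem_product, mem_Dv hf.ne_zero, mem_Dv hg.ne_zero]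
      exact ⟨⟨⟨ha, f', hf'⟩, hb, g', hg'⟩, hab.symm⟩
    have := Finset.single_le_sum (f := fun x : F[X] × F[X] => dk k (f / x.1) * dk k (g / x.2))
      (fun x _ => Nat.zero_le _) hmem
    simp only [e1, e2] at this
    exact this

private lemma Dv_one {F : Type} [Field F] [Fintype F] : Dv (1 : F[X]) = {1} := by
  ext d
  rw [mem_Dv one_ne_zero, Finset.mem_singleton]
  constructor
  · rintro ⟨h1, h2⟩
    exact h1.eq_one_of_isUnit (isUnit_of_dvd_one h2)
  · rintro rfl
    exact ⟨monic_one, dvd_rfl⟩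

private lemma dk_one (hR : StDKR) (F : Type) [Field F] [Fintype F] (k : ℕ) :
    dk k (1 : F[X]) = 1 := by
  obtain ⟨⟨h01, h0⟩, hrec, -, -⟩ := hR F
  induction k with
  | zero => exact h01
  | succ k ih =>
    rw [hrec k 1 monic_one, Dv_one, Finset.sum_singleton]
    have : (1 : F[X]) / 1 = 1 := by
      have := mul_div_cancel_left₀ (1 : F[X]) (one_ne_zero (α := F[X]))
      rwa [one_mul] at this
    rw [this, ih]

open scoped Classical in
private lemma Dv_irr {F : Type} [Field F] [Fintype F] {p : F[X]} (hp : p.Monic)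
    (hi : Irreducible p) : Dv p = {1, p} := by
  ext d
  rw [mem_Dv hp.ne_zero, Finset.mem_insert, Finset.mem_singleton]
  constructor
  · rintro ⟨h1, h2⟩
    rcases hi.dvd_iff.1 h2 with h | h
    · exact Or.inl (h1.eq_one_of_isUnit h)
    · exact Or.inr (eq_of_monic_of_associated h1 hp h.symm)
  · rintro (rfl | rfl)
    · exact ⟨monic_one, one_dvd _⟩
    · exact ⟨hp, dvd_rfl⟩

private lemma dk_irr (hR : StDKR) (F : Type) [Field F] [Fintype F] (k : ℕ) (p : F[X])
    (hp : p.Monic) (hi : Irreducible p) : dk k p = k := by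
  classical
  have hp1 : p ≠ 1 := by
    rintro rfl
    exact hi.not_isUnit isUnit_one
  have hk1 := dk_one hR F
  obtain ⟨⟨h01, h0⟩, hrec, -, -⟩ := hR F
  induction k with
  | zero => exact h0 p hp hp1
  | succ k ih =>
    rw [hrec k p hp, Dv_irr hp hi, Finset.sum_pair hp1.symm]
    have e1 : p / 1 = p := by
      have := mul_div_cancel_left₀ p (one_ne_zero (α := F[X]))
      rwa [one_mul] at this
    have e2 : p / p = 1 := by
      have := mul_div_cancel_left₀ (1 : F[X]) hp.ne_zero
      rwa [mul_one] at this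
    rw [e1, e2, ih, hk1]

private lemma prod_le (hR : StDKR) (F : Type) [Field F] [Fintype F] (k : ℕ)
    (s : Multiset F[X]) (hs : ∀ p ∈ s, p.Monic ∧ Irreducible p) :
    s.prod.Monic ∧ dk k s.prod ≤ k ^ Multiset.card s := by
  induction s using Multiset.induction with
  | empty =>
    rw [Multiset.prod_zero, Multiset.card_zero, pow_zero, dk_one hR F k]
    exact ⟨monic_one, le_rfl⟩
  | cons p s ih =>
    obtain ⟨h1, h2⟩ := ih (fun q hq => hs q (Multiset.mem_cons_of_mem hq))
    obtain ⟨h3, h4⟩ := hs p (Multiset.mem_cons_self p s)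
    rw [Multiset.prod_cons, Multiset.card_cons]
    refine ⟨h3.mul h1, ?_⟩
    calc dk k (p * s.prod) ≤ dk k p * dk k s.prod := submul hR F k p s.prod h3 h1
      _ ≤ k * k ^ Multiset.card s := by
        rw [dk_irr hR F k p h3 h4]
        exact Nat.mul_le_mul_left k h2
      _ = k ^ (Multiset.card s + 1) := by rw [pow_succ, mul_comm]

open scoped Classical in
private lemma nf_prop {F : Type} [Field F] (f : F[X]) (hf : f.Monic) :
    (∀ p ∈ nf f, p.Monic ∧ Irreducible p) ∧ (nf f).prod = f := by
  unfold nf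
  constructor
  · intro p hp
    have h1 := UniqueFactorizationMonoid.irreducible_of_normalized_factor p hp
    have h2 := UniqueFactorizationMonoid.normalize_normalized_factor p hp
    refine ⟨?_, h1⟩
    rw [← h2]
    exact monic_normalize h1.ne_zero
  · rw [UniqueFactorizationMonoid.prod_normalizedFactors_eq hf.ne_zero, hf.normalize_eq_self]

theorem hDKS (hR : StDKR) : StDKS := by
  intro F _ _ k
  refine ⟨submul hR F k, ?_⟩
  intro f hf
  obtain ⟨h1, h2⟩ := nf_prop f hf
  have := (prod_le hR F k (nf f) h1).2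
  rwa [h2] at this

end Pool.Agent.Helper47.UB
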